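import Pool.Agent.H13.Fan

set_option autoImplicit false
open MeasureTheory

namespace Pool.Agent.Results.MP_cac92d_co.FourFan

/-- The closed sector with apex `x` swept counterclockwise from direction `a` to direction `b`. -/
def sector (x : EuclideanSpace ℝ (Fin 2)) (a b : ℝ) : Set (EuclideanSpace ℝ (Fin 2)) :=
  {y | ∃ r φ : ℝ, 0 ≤ r ∧ a ≤ φ ∧ φ ≤ b ∧
    y 0 = x 0 + r * Real.cos φ ∧ y 1 = x 1 + r * Real.sin φ}

theorem result :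
    ∃ μ ν : Measure (EuclideanSpace ℝ (Fin 2)),
      IsProbabilityMeasure μ ∧ IsProbabilityMeasure ν ∧ μ ≪ volume ∧ ν ≪ volume ∧
      ∀ (x : EuclideanSpace ℝ (Fin 2)) (θ₁ θ₂ θ₃ θ₄ : ℝ),
        θ₁ < θ₂ → θ₂ < θ₃ → θ₃ < θ₄ → θ₄ < θ₁ + 2 * Real.pi →
        ¬ ∀ m ∈ ({μ, ν} : Set (Measure (EuclideanSpace ℝ (Fin 2)))),
          m (sector x θ₁ θ₂) = 7 / 20 ∧ m (sector x θ₂ θ₃) = 3 / 20 ∧
          m (sector x θ₃ θ₄) = 7 / 20 ∧ m (sector x θ₄ (θ₁ + 2 * Real.pi)) = 3 / 20 := by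
  refine ⟨H13.Fan.mu 3 H13.Fan.AA, H13.Fan.mu 7 H13.Fan.BB, H13.Fan.mu_prob _ (by norm_num) _,
    H13.Fan.mu_prob _ (by norm_num) _, H13.Fan.mu_ac _ _, H13.Fan.mu_ac _ _, ?_⟩
  intro x θ₁ θ₂ θ₃ θ₄ h12 h23 h34 h41 h
  obtain ⟨a1, -, a3, -⟩ := h _ (Or.inl rfl)
  obtain ⟨-, b2, -, b4⟩ := h _ (Or.inr rfl)
  have k1 : ((3 : ℕ) : ENNReal)⁻¹ < 7 / 20 := by
    rw [← ENNReal.toReal_lt_toReal (by simp) (by finiteness)]
    norm_num
  have k2 : ((7 : ℕ) : ENNReal)⁻¹ < 3 / 20 := by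
    rw [← ENNReal.toReal_lt_toReal (by simp) (by finiteness)]
    norm_num
  refine H13.Fan.main x _ _ _ _ ?_ (a1 ▸ k1) (a3 ▸ k1) (b2 ▸ k2) (b4 ▸ k2)
  rintro p ⟨r, φ, hr, p1, p2, p3, p4⟩ q ⟨s, ψ, hs, q1, q2, q3, q4⟩
  have hpi := Real.pi_pos
  rcases le_total (ψ - φ) Real.pi with hc | hc
  · left
    unfold H13.Fan.Wedge
    rw [p3, p4, q3, q4]
    simp only [add_sub_cancel_left]
    refine ⟨H13.Fan.cr_polar _ _ _ _ hr hs (by linarith) hc, ?_⟩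
    rintro y ⟨t, ω, ht, y1, y2, y3, y4⟩
    rw [y3, y4]
    simp only [add_sub_cancel_left]
    exact ⟨H13.Fan.cr_polar _ _ _ _ hr ht (by linarith) (by linarith),
      H13.Fan.cr_polar _ _ _ _ ht hs (by linarith) (by linarith)⟩
  · right
    unfold H13.Fan.Wedge
    rw [p3, p4, q3, q4, ← Real.cos_add_two_pi φ, ← Real.sin_add_two_pi φ]
    simp only [add_sub_cancel_left]
    refine ⟨H13.Fan.cr_polar _ _ _ _ hs hr (by linarith) (by linarith), ?_⟩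
    rintro y ⟨t, ω, ht, y1, y2, y3, y4⟩
    rw [y3, y4]
    simp only [add_sub_cancel_left]
    exact ⟨H13.Fan.cr_polar _ _ _ _ hs ht (by linarith) (by linarith),
      H13.Fan.cr_polar _ _ _ _ ht hr (by linarith) (by linarith)⟩

end Pool.Agent.Results.MP_cac92d_co.FourFan
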